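import Pool.Agent.TH958.BV.Univ

/-!
# The Euler factors of weight `i` at the edge
-/

set_option autoImplicit false

namespace Pool.Agent.TH958.BV

open Filter Topology Polynomial Finset

variable {N : ℕ}

/-- The small quantities `α_j q^{-s}`. -/
noncomputable def uj (q : ℕ) (α : Fin N → ℂ) (j : Fin N) (s : ℂ) : ℂ := α j * (q : ℂ) ^ (-s)

/-- The remainder of the logarithm of the factor. -/
noncomputable def rem (q : ℕ) (α : Fin N → ℂ) (s : ℂ) : ℂ :=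
  ∑ j, (-Complex.log (1 - uj q α j s) - uj q α j s)

lemma norm_uj {q : ℕ} (hq : 2 ≤ q) {α : Fin N → ℂ} {w : ℝ} (hα : ∀ j, ‖α j‖ = (q : ℝ) ^ (w / 2))
    (j : Fin N) {s : ℂ} (hs : w / 2 + 1 ≤ s.re) : ‖uj q α j s‖ ≤ 1 / q := by
  have hq0 : (0 : ℝ) < q := by exact_mod_cast (by omega : 0 < q)
  have hq1 : (1 : ℝ) ≤ q := by exact_mod_cast (by omega : 1 ≤ q)
  unfold uj
  rw [norm_mul, hα, Complex.norm_natCast_cpow_of_pos (by omega), ← Real.rpow_add hq0, one_div,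
    ← Real.rpow_neg_one]
  refine Real.rpow_le_rpow_of_exponent_le hq1 ?_
  rw [Complex.neg_re]
  linarith

lemma norm_uj_half {q : ℕ} (hq : 2 ≤ q) {α : Fin N → ℂ} {w : ℝ}
    (hα : ∀ j, ‖α j‖ = (q : ℝ) ^ (w / 2)) (j : Fin N) {s : ℂ} (hs : w / 2 + 1 ≤ s.re) :
    ‖uj q α j s‖ ≤ 1 / 2 := by
  refine (norm_uj hq hα j hs).trans ?_
  exact one_div_le_one_div_of_le two_pos (by exact_mod_cast hq)

lemma norm_rem {q : ℕ} (hq : 2 ≤ q) {α : Fin N → ℂ} {w : ℝ}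
    (hα : ∀ j, ‖α j‖ = (q : ℝ) ^ (w / 2)) {s : ℂ} (hs : w / 2 + 1 ≤ s.re) :
    ‖rem q α s‖ ≤ N * (q : ℝ) ^ (-2 : ℝ) := by
  have hq0 : (0 : ℝ) < q := by exact_mod_cast (by omega : 0 < q)
  unfold rem
  refine (norm_sum_le_of_le (f := fun j => -Complex.log (1 - uj q α j s) - uj q α j s)
    (n := fun _ => (q : ℝ) ^ (-2 : ℝ)) _ fun j _ => ?_).trans ?_
  · have h1 := norm_uj hq hα j hs
    have h2 := norm_uj_half hq hα j hs
    have h3 : ‖-uj q α j s‖ < 1 := by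
      rw [norm_neg]
      linarith
    have h4 := Complex.norm_log_one_add_sub_self_le h3
    rw [norm_neg] at h4
    have h5 : -Complex.log (1 - uj q α j s) - uj q α j s =
        -(Complex.log (1 + -uj q α j s) - -uj q α j s) := by
      rw [sub_eq_add_neg (1 : ℂ) (uj q α j s)]
      ring
    rw [h5, norm_neg]
    refine h4.trans ?_
    have h7 : (1 - ‖uj q α j s‖)⁻¹ ≤ 2 := by
      rw [inv_le_comm₀ (by linarith) (by norm_num)]
      linarith
    have h8 : ‖uj q α j s‖ ^ 2 ≤ (1 / q) ^ 2 := pow_le_pow_left₀ (norm_nonneg _) h1 2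
    have h9 : (1 / (q : ℝ)) ^ 2 = (q : ℝ) ^ (-2 : ℝ) := by
      rw [Real.rpow_neg hq0.le, Real.rpow_two, one_div, inv_pow]
    have h10 : 0 < (1 - ‖uj q α j s‖)⁻¹ := inv_pos.2 (by linarith)
    rw [h9] at h8
    calc ‖uj q α j s‖ ^ 2 * (1 - ‖uj q α j s‖)⁻¹ / 2 ≤ (q : ℝ) ^ (-2 : ℝ) * 2 / 2 := by
          have := mul_le_mul h8 h7 h10.le (by positivity)
          linarith
      _ = _ := by ring
  · rw [sum_const, card_univ, Fintype.card_fin, nsmul_eq_mul]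

lemma one_sub_ne {q : ℕ} (hq : 2 ≤ q) {α : Fin N → ℂ} {w : ℝ}
    (hα : ∀ j, ‖α j‖ = (q : ℝ) ^ (w / 2)) (j : Fin N) {s : ℂ} (hs : w / 2 + 1 ≤ s.re) :
    1 - uj q α j s ∈ Complex.slitPlane := by
  refine Or.inl ?_
  have h3 := norm_uj_half hq hα j hs
  have h4 := Complex.re_le_norm (uj q α j s)
  rw [Complex.sub_re, Complex.one_re]
  linarith

lemma continuous_uj {q : ℕ} (hq : 2 ≤ q) (α : Fin N → ℂ) (j : Fin N) :
    Continuous (uj q α j) := by
  unfold uj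
  have hq0 : (q : ℂ) ≠ 0 := by exact_mod_cast (by omega : q ≠ 0)
  exact continuous_const.mul (continuous_neg.const_cpow (Or.inl hq0))

lemma continuousAt_rem {q : ℕ} (hq : 2 ≤ q) {α : Fin N → ℂ} {w : ℝ}
    (hα : ∀ j, ‖α j‖ = (q : ℝ) ^ (w / 2)) {s : ℂ} (hs : w / 2 + 1 ≤ s.re) :
    ContinuousAt (rem q α) s := by
  unfold rem
  refine tendsto_finsetSum _ fun j _ => ?_
  have h1 : ContinuousAt (fun s => Complex.log (1 - uj q α j s)) s :=
    ContinuousAt.clog ((continuous_const.sub (continuous_uj hq α j)).continuousAt)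
      (one_sub_ne hq hα j hs)
  exact (h1.neg.sub (continuous_uj hq α j).continuousAt).tendsto

lemma factor_eq {q : ℕ} (hq : 2 ≤ q) {α : Fin N → ℂ} {w : ℝ}
    (hα : ∀ j, ‖α j‖ = (q : ℝ) ^ (w / 2)) {s : ℂ} (hs : w / 2 + 1 ≤ s.re) :
    (∏ j, (1 - α j * (q : ℂ) ^ (-s)))⁻¹ =
      Complex.exp ((∑ j, α j) * (q : ℂ) ^ (-s) + rem q α s) := by
  have h1 : (∑ j, α j) * (q : ℂ) ^ (-s) + rem q α s = ∑ j, -Complex.log (1 - uj q α j s) := by
    unfold rem uj
    rw [sum_mul, ← sum_add_distrib]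
    refine sum_congr rfl fun j _ => ?_
    ring
  rw [h1, Complex.exp_sum, ← prod_inv_distrib]
  refine prod_congr rfl fun j _ => ?_
  rw [Complex.exp_neg, Complex.exp_log (Complex.slitPlane_ne_zero (one_sub_ne hq hα j hs))]
  rfl

lemma first_term {q : ℕ} (hq : 2 ≤ q) (A : ℂ) (w τ : ℝ) (z : ℂ) :
    Complex.exp (-z * Real.log q) * (A / (((q : ℝ) ^ (w / 2) : ℝ) : ℂ) / q *
      Complex.exp (-(τ * Real.log q) * Complex.I)) =
      A * (q : ℂ) ^ (-(((w / 2 + 1 : ℝ) : ℂ) + τ * Complex.I + z)) := by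
  have h0 : (0 : ℝ) < q := by exact_mod_cast (by omega : 0 < q)
  have hq0 : (q : ℂ) ≠ 0 := by exact_mod_cast (by omega : q ≠ 0)
  have hlog : Complex.log (q : ℂ) = ((Real.log q : ℝ) : ℂ) := by
    rw [← Complex.ofReal_natCast, Complex.ofReal_log h0.le]
  have h1 : (q : ℂ) = Complex.exp ((Real.log q : ℝ) : ℂ) := by
    rw [← Complex.ofReal_exp, Real.exp_log h0, Complex.ofReal_natCast]
  have h2 : (((q : ℝ) ^ (w / 2) : ℝ) : ℂ) = Complex.exp ((Real.log q * (w / 2) : ℝ) : ℂ) := by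
    rw [← Complex.ofReal_exp, Real.rpow_def_of_pos h0]
  rw [Complex.cpow_def_of_ne_zero hq0, hlog, h2]
  have h3 : A / Complex.exp ((Real.log q * (w / 2) : ℝ) : ℂ) / (q : ℂ) =
      A * Complex.exp (-((Real.log q * (w / 2) : ℝ) : ℂ)) *
        Complex.exp (-((Real.log q : ℝ) : ℂ)) := by
    rw [Complex.exp_neg, Complex.exp_neg, ← h1, div_eq_mul_inv, div_eq_mul_inv]
  rw [h3]
  have h4 : ∀ x y u v c : ℂ, Complex.exp x * (c * Complex.exp y * Complex.exp u *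
      Complex.exp v) = c * Complex.exp (x + y + u + v) := by
    intro x y u v c
    rw [Complex.exp_add, Complex.exp_add, Complex.exp_add]
    ring
  rw [h4]
  congr 2
  push_cast
  ring

end Pool.Agent.TH958.BV
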