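import Pool.Agent.TH958.BV.Local

/-!
# Universal boundary values of the L-functions of projective varieties
-/

set_option autoImplicit false

namespace Pool.Agent.TH958.BV

open NumberField IsDedekindDomain Filter Topology Polynomial Pool.Agent.H921R2.TatePole
  Pool.Agent.W350.Edge Pool.Agent.W350.EdgeV Pool.Agent.W350.EdgeNF

variable {K : Type} [Field K] [NumberField K] {n : ℕ}

/-- The good primes. -/
def GoodV (X : Set (MvPolynomial (Fin n) (𝓞 K))) (d i N : ℕ)
    (B : HeightOneSpectrum (𝓞 K) → ℂ[X]) (v : HeightOneSpectrum (𝓞 K)) : Prop :=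
  ∃ α : Fin N → ℂ, IsFrobenius X d i v α ∧ ∀ z : ℂ, (B v).eval z = ∏ j, (1 - α j * z)

/-- The Frobenius of the prime field from the Frobenius at a prime of prime norm. -/
lemma fr_of_isFrobenius {X : Set (MvPolynomial (Fin n) (𝓞 K))} {d i N : ℕ} {α : Fin N → ℂ}
    {m : ℕ} (f : PR m →+* 𝓞 K) (hf : Function.Surjective f) {p : ℕ} (hp : p.Prime)
    (φ : 𝓞 K →+* ZMod p) (h : IsFrobenius X d i (homEquiv p hp φ).1 α) :
    ∃ β : ℕ → Multiset ℂ, β i = Finset.univ.val.map α ∧
      Fr p (φ.comp f) ((Ideal.comap (MvPolynomial.map f) (Ideal.span X) :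
        Ideal (MvPolynomial (Fin n) (PR m))) : Set (MvPolynomial (Fin n) (PR m))) d β := by
  have hF : Fact p.Prime := ⟨hp⟩
  have hnm : nm (homEquiv p hp φ).1 = p := (homEquiv p hp φ).2
  have hnm' : Ideal.absNorm (homEquiv p hp φ).1.asIdeal = p := hnm
  have hid : (homEquiv p hp φ).1.asIdeal = RingHom.ker φ := homEquiv_ideal p hp φ
  obtain ⟨β, h1, h2, h3⟩ := h
  rw [hnm'] at h2 h3
  refine ⟨β, h1, h2, fun κ _ _ χ e he => ?_⟩
  have h4 : RingHom.ker (χ.comp φ) = (homEquiv p hp φ).1.asIdeal := by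
    rw [hid]
    ext x
    rw [RingHom.mem_ker, RingHom.mem_ker, RingHom.comp_apply]
    exact map_eq_zero_iff _ χ.injective
  have h5 := h3 κ (χ.comp φ) e h4 he
  rw [← h5, ← RingHom.comp_assoc, cone_comap f hf]

open Classical in
/-- The normalised traces at the primes above good prime numbers. -/
noncomputable def av (X : Set (MvPolynomial (Fin n) (𝓞 K))) (d i N : ℕ)
    (B : HeightOneSpectrum (𝓞 K) → ℂ[X]) (E : Finset ℕ) (v : HeightOneSpectrum (𝓞 K)) : ℂ :=
  if h : (below v : ℕ) ∉ E ∧ GoodV X d i N B v then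
    (∑ j, h.2.choose j) / (((nm v : ℝ) ^ ((i : ℝ) / 2) : ℝ) : ℂ) else 0

open Classical in
/-- The remainders of the logarithms. -/
noncomputable def rv (X : Set (MvPolynomial (Fin n) (𝓞 K))) (d i N : ℕ)
    (B : HeightOneSpectrum (𝓞 K) → ℂ[X]) (E : Finset ℕ) (v : HeightOneSpectrum (𝓞 K))
    (s : ℂ) : ℂ :=
  if h : (below v : ℕ) ∉ E ∧ GoodV X d i N B v then rem (nm v) h.2.choose s else 0

lemma norm_of_isFrobenius {X : Set (MvPolynomial (Fin n) (𝓞 K))} {d i N : ℕ}
    {v : HeightOneSpectrum (𝓞 K)} {α : Fin N → ℂ} (h : IsFrobenius X d i v α) (j : Fin N) :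
    ‖α j‖ = (nm v : ℝ) ^ ((i : ℝ) / 2) := by
  obtain ⟨β, h1, h2, h3⟩ := h
  refine h2 i (α j) ?_
  rw [h1]
  exact Multiset.mem_map_of_mem _ (Finset.mem_univ_val j)

lemma norm_av (X : Set (MvPolynomial (Fin n) (𝓞 K))) (d i N : ℕ)
    (B : HeightOneSpectrum (𝓞 K) → ℂ[X]) (E : Finset ℕ) (v : HeightOneSpectrum (𝓞 K)) :
    ‖av X d i N B E v‖ ≤ N := by
  unfold av
  split_ifs with h
  · have hq0 : (0 : ℝ) < nm v := by exact_mod_cast hN v
    have h0 : 0 < (nm v : ℝ) ^ ((i : ℝ) / 2) := by positivity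
    rw [norm_div, Complex.norm_real, Real.norm_of_nonneg h0.le, div_le_iff₀ h0]
    refine (norm_sum_le_of_le (n := fun _ => (nm v : ℝ) ^ ((i : ℝ) / 2)) _ fun j _ =>
      (norm_of_isFrobenius h.2.choose_spec.1 j).le).trans ?_
    rw [Finset.sum_const, Finset.card_univ, Fintype.card_fin, nsmul_eq_mul]
  · simp

lemma grp_av {X : Set (MvPolynomial (Fin n) (𝓞 K))} {d i N : ℕ} (hi : i ≤ 2 * d)
    {B : HeightOneSpectrum (𝓞 K) → ℂ[X]} {E : Finset ℕ}
    (hE : ∀ v, (below v : ℕ) ∉ E → GoodV X d i N B v) {m : ℕ} (f : PR m →+* 𝓞 K)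
    (hf : Function.Surjective f) (M : ℕ) (p : ℕ) (hp : p.Prime) :
    grp (N := (nm : HeightOneSpectrum (𝓞 K) → ℕ)) (av X d i N B E) p =
      hsum ⟨m, n, RingHom.ker f, Ideal.comap (MvPolynomial.map f) (Ideal.span X), d, i, M, E⟩ p := by
  have hF : Fact p.Prime := ⟨hp⟩
  have hbelow : ∀ φ : 𝓞 K →+* ZMod p, (below (homEquiv p hp φ).1 : ℕ) = p := by
    intro φ
    obtain ⟨h1, h2, _⟩ := nm_eq (homEquiv p hp φ).1
    have hv' : nm (homEquiv p hp φ).1 = p := (homEquiv p hp φ).2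
    have h3 : (below (homEquiv p hp φ).1 : ℕ) ∣ p := by
      conv_rhs => rw [← hv', h1]
      exact dvd_pow_self _ h2.ne'
    exact (Nat.prime_dvd_prime_iff_eq (below (homEquiv p hp φ).1).2 hp).1 h3
  unfold grp hsum
  rw [← (homEquiv (K := K) p hp).tsum_eq]
  by_cases hpE : p ∈ E
  · rw [if_pos hpE]
    have : ∀ φ : 𝓞 K →+* ZMod p, av X d i N B E (homEquiv p hp φ).1 = 0 := by
      intro φ
      unfold av
      rw [dif_neg]
      intro h
      exact h.1 (by rw [hbelow]; exact hpE)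
    simp [this]
  · rw [if_neg hpE]
    rw [← (f.liftOfSurjective hf (C := ZMod p)).symm.tsum_eq]
    refine tsum_congr fun φ => ?_
    have h1 : (below (homEquiv p hp φ).1 : ℕ) ∉ E := by
      rw [hbelow]
      exact hpE
    have h2 : (below (homEquiv p hp φ).1 : ℕ) ∉ E ∧ GoodV X d i N B (homEquiv p hp φ).1 :=
      ⟨h1, hE _ h1⟩
    obtain ⟨β, h3, h4⟩ := fr_of_isFrobenius f hf hp φ h2.2.choose_spec.1
    have h5 : nm (homEquiv p hp φ).1 = p := (homEquiv p hp φ).2
    unfold av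
    rw [dif_pos h2, h5]
    have h6 := tr_eq hp hi h4
    have h7 : (β i).sum = ∑ j, h2.2.choose j := by
      rw [h3]
      rfl
    rw [h7] at h6
    exact h6.symm

lemma norm_grp_av (X : Set (MvPolynomial (Fin n) (𝓞 K))) (d i N : ℕ)
    (B : HeightOneSpectrum (𝓞 K) → ℂ[X]) (E : Finset ℕ) (p : ℕ) (hp : p.Prime) :
    ‖grp (N := (nm : HeightOneSpectrum (𝓞 K) → ℕ)) (av X d i N B E) p‖ ≤
      N * Module.finrank ℚ K := by
  have hfi : Finite (𝓞 K →+* ZMod p) := hom_finite ⟨p, hp⟩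
  have := Fintype.ofFinite (𝓞 K →+* ZMod p)
  unfold grp
  rw [← (homEquiv (K := K) p hp).tsum_eq, tsum_fintype]
  refine (norm_sum_le_of_le (n := fun _ => (N : ℝ)) _ fun φ _ => norm_av X d i N B E _).trans ?_
  rw [Finset.sum_const, nsmul_eq_mul, mul_comm]
  refine mul_le_mul_of_nonneg_left ?_ (Nat.cast_nonneg _)
  have h2 : Nat.card (𝓞 K →+* ZMod p) ≤ Module.finrank ℚ K :=
    (R_eq_hc (K := K) ⟨p, hp⟩).symm.le.trans (R_le (K := K) ⟨p, hp⟩)
  rw [Nat.card_eq_fintype_card] at h2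
  rw [Finset.card_univ]
  exact_mod_cast h2

/-- **Universal boundary values.** -/
theorem universal (X : Set (MvPolynomial (Fin n) (𝓞 K))) (d i N : ℕ) (hi : i ≤ 2 * d)
    (B : HeightOneSpectrum (𝓞 K) → ℂ[X]) (hB : IsEulerSystem X d i N B) (τ : ℝ) (hτ : τ ∉ TT) :
    ∃ l : ℂ, l ≠ 0 ∧
      Tendsto (fun x : ℕ => ∏ v ∈ FV nm hfin x, localFactor B v (edgePoint i τ)) atTop (𝓝 l) ∧
      ∀ C : ℝ, Tendsto (LFun B) (𝓝[angle i τ C] (edgePoint i τ)) (𝓝 l) := by
  classical
  obtain ⟨hB1, hB2⟩ := hB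
  have hbad : {v | ¬ GoodV X d i N B v}.Finite := hB1
  set E : Finset ℕ := hbad.toFinset.image fun v => (below v : ℕ) with hEdef
  have hE : ∀ v, (below v : ℕ) ∉ E → GoodV X d i N B v := by
    intro v hv
    by_contra h
    exact hv (Finset.mem_image.2 ⟨v, by simpa using h, rfl⟩)
  rw [TT, Set.mem_union, not_or, Set.mem_iUnion, Set.mem_iUnion, not_exists, not_exists] at hτ
  obtain ⟨m, f, hf⟩ := Algebra.FiniteType.iff_quotient_mvPolynomial''.1
    (inferInstance : Algebra.FiniteType ℤ (𝓞 K))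
  have hf' : Function.Surjective (f : PR m →+* 𝓞 K) := hf
  obtain ⟨M, hM⟩ := exists_nat_ge ((N : ℝ) * Module.finrank ℚ K)
  set x : Idx := ⟨m, n, RingHom.ker (f : PR m →+* 𝓞 K),
    Ideal.comap (MvPolynomial.map (f : PR m →+* 𝓞 K)) (Ideal.span X), d, i, M, E⟩ with hx
  have hcoef : ∀ p : ℕ, p.Prime → coef x p =
      grp (N := (nm : HeightOneSpectrum (𝓞 K) → ℕ)) (av X d i N B E) p := by
    intro p hp
    have h1 := grp_av hi hE (f : PR m →+* 𝓞 K) hf' M p hp
    have h2 := norm_grp_av X d i N B E p hp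
    unfold coef
    rw [if_pos, h1]
    rw [← h1]
    exact h2.trans hM
  have hconv : ∃ A, Tendsto (fun y => ∑ v ∈ FV nm hfin y, vt nm (av X d i N B E) τ v) atTop
      (𝓝 A) := by
    refine tendsto_places hN hfin (av X d i N B E) N (norm_av X d i N B E) hlow (coef x)
      hcoef τ ?_
    have := hτ.1 x
    unfold divSet at this
    simpa using this
  obtain ⟨A, hA⟩ := hconv
  have hSfin : {v : HeightOneSpectrum (𝓞 K) | (below v : ℕ) ∈ E}.Finite := by
    have h1 : {v : HeightOneSpectrum (𝓞 K) | (below v : ℕ) ∈ E} ⊆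
        ⋃ q ∈ E, {v : HeightOneSpectrum (𝓞 K) | (below v : ℕ) = q} := by
      intro v hv
      simp only [Set.mem_iUnion]
      exact ⟨_, hv, rfl⟩
    refine Set.Finite.subset (Set.Finite.biUnion (Finset.finite_toSet E) fun q _ => ?_) h1
    by_cases hq : q.Prime
    · have h2 : Finite {v : HeightOneSpectrum (𝓞 K) // below v = ⟨q, hq⟩} := fiber_finite _
      refine Set.Finite.subset (s := {v : HeightOneSpectrum (𝓞 K) | below v = ⟨q, hq⟩})
        h2 fun v hv => ?_
      exact Subtype.ext hv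
    · convert Set.finite_empty
      ext v
      simp only [Set.mem_ofPred_eq, Set.mem_empty_iff_false, iff_false]
      intro h
      exact hq (h ▸ (below v).2)
  have hσ : ∀ z : ℂ, 0 ≤ z.re → (i : ℝ) / 2 + 1 ≤ ((((i : ℝ) / 2 + 1 : ℝ) : ℂ) +
      τ * Complex.I + z).re := by
    intro z hz
    simp only [Complex.add_re, Complex.ofReal_re, Complex.mul_re, Complex.I_re, mul_zero,
      Complex.ofReal_im, Complex.I_im, mul_one, sub_self, add_zero]
    linarith
  have hgood : ∀ v, (below v : ℕ) ∉ E → (below v : ℕ) ∉ E ∧ GoodV X d i N B v := fun v hv =>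
    ⟨hv, hE v hv⟩
  refine at_point_V hN hfin hpow (av X d i N B E) N (norm_av X d i N B E) hSfin.toFinset
    (localFactor B) (rv X d i N B E) N ((i : ℝ) / 2 + 1) τ (fun v s hs => ?_) (fun v => ?_)
    ?_ ?_ ?_ A hA
  · unfold rv
    split_ifs with h
    · exact norm_rem (two_le_nm v) (norm_of_isFrobenius h.2.choose_spec.1) hs
    · rw [norm_zero]
      positivity
  · refine Tendsto.mono_left ?_ nhdsWithin_le_nhds
    unfold rv
    split_ifs with h
    · refine (continuousAt_rem (two_le_nm v) (norm_of_isFrobenius h.2.choose_spec.1) ?_).tendsto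
      have := hσ 0 (by simp)
      rwa [add_zero] at this
    · exact tendsto_const_nhds
  · intro v hv
    have hv' : (below v : ℕ) ∈ E := by simpa using hv
    refine ⟨?_, fun s => ?_⟩
    · unfold av
      rw [dif_neg fun h => h.1 hv']
    · unfold rv
      rw [dif_neg fun h => h.1 hv']
  · intro v _
    have hne : (B v).eval ((nm v : ℂ) ^ (-((((i : ℝ) / 2 + 1 : ℝ) : ℂ) + τ * Complex.I))) ≠ 0 := by
      intro h
      refine hτ.2 ⟨nm v, i, ⟨B v, (hB2 v).2⟩⟩ ⟨two_le_nm v, (hB2 v).1, ?_⟩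
      exact h
    refine ⟨inv_ne_zero hne, ?_⟩
    unfold localFactor
    refine ContinuousAt.inv₀ (Continuous.continuousAt ?_) hne
    have hq0 : (nm v : ℂ) ≠ 0 := by
      have := hN v
      exact_mod_cast (by omega : nm v ≠ 0)
    exact (B v).continuous.comp (continuous_neg.const_cpow (Or.inl hq0))
  · intro v hv z hz
    have hv' : (below v : ℕ) ∉ E := by simpa using hv
    have h := hgood v hv'
    have h1 := h.2.choose_spec
    unfold vt
    have hav : av X d i N B E v =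
        (∑ j, h.2.choose j) / (((nm v : ℝ) ^ ((i : ℝ) / 2) : ℝ) : ℂ) := by
      unfold av
      rw [dif_pos h]
    have hrv : ∀ s, rv X d i N B E v s = rem (nm v) h.2.choose s := by
      intro s
      unfold rv
      rw [dif_pos h]
    rw [hav, hrv, first_term (two_le_nm v), ← factor_eq (two_le_nm v)
      (norm_of_isFrobenius h1.1) (hσ z hz)]
    unfold localFactor
    rw [h1.2]
    rfl

end Pool.Agent.TH958.BV
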