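import Mathlib

/-!
# Multisets of complex numbers of different weights are determined by their power sums
-/

set_option autoImplicit false

namespace Pool.Agent.TH958.BV

open Finset Polynomial

/-- If `∑_{z ∈ S} m(z) z^e = 0` for all `e ≥ 1`, then `m(z) = 0` for all nonzero `z ∈ S`. -/
lemma coeff_zero (S : Finset ℂ) (m : ℂ → ℂ) (h : ∀ e, 1 ≤ e → ∑ z ∈ S, m z * z ^ e = 0)
    {z₀ : ℂ} (hz : z₀ ∈ S) (h0 : z₀ ≠ 0) : m z₀ = 0 := by
  classical
  have key : ∀ P : ℂ[X], ∑ z ∈ S, m z * (z * P.eval z) = 0 := by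
    intro P
    have h1 : ∀ z, z * P.eval z = ∑ k ∈ range (P.natDegree + 1), P.coeff k * z ^ (k + 1) := by
      intro z
      rw [eval_eq_sum_range, mul_sum]
      refine sum_congr rfl fun k _ => ?_
      ring
    simp only [h1, mul_sum]
    rw [sum_comm]
    refine sum_eq_zero fun k _ => ?_
    have h2 := h (k + 1) (by omega)
    calc ∑ z ∈ S, m z * (P.coeff k * z ^ (k + 1)) = P.coeff k * ∑ z ∈ S, m z * z ^ (k + 1) := by
          rw [mul_sum]
          refine sum_congr rfl fun z _ => ?_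
          ring
      _ = 0 := by rw [h2, mul_zero]
  have h1 := key (∏ w ∈ S.erase z₀, (X - C w))
  rw [sum_eq_single_of_mem z₀ hz] at h1
  · have h2 : eval z₀ (∏ w ∈ S.erase z₀, (X - C w)) ≠ 0 := by
      rw [eval_prod]
      refine prod_ne_zero_iff.2 fun w hw => ?_
      rw [eval_sub, eval_X, eval_C]
      exact sub_ne_zero.2 fun h => (ne_of_mem_erase hw) h.symm
    rcases mul_eq_zero.1 h1 with h3 | h3
    · exact h3
    · rcases mul_eq_zero.1 h3 with h4 | h4
      · exact (h0 h4).elim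
      · exact (h2 h4).elim
  · intro z hz' hne
    have : eval z (∏ w ∈ S.erase z₀, (X - C w)) = 0 := by
      rw [eval_prod]
      refine prod_eq_zero (mem_erase.2 ⟨hne, hz'⟩) ?_
      simp
    rw [this, mul_zero, mul_zero]

lemma pow_sum_eq (β : Multiset ℂ) (S : Finset ℂ) (hS : ∀ z ∈ β, z ∈ S) (e : ℕ) :
    (β.map (fun z => z ^ e)).sum = ∑ z ∈ S, (β.count z : ℂ) * z ^ e := by
  classical
  rw [Finset.sum_multiset_map_count]
  refine (sum_subset (fun z hz => hS z (Multiset.mem_toFinset.1 hz)) fun z _ hz => ?_).trans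
    (sum_congr rfl fun z _ => ?_)
  · rw [Multiset.mem_toFinset] at hz
    rw [Multiset.count_eq_zero_of_notMem hz, zero_smul]
  · rw [nsmul_eq_mul]

/-- Finite multisets `β_k`, `k = 0, …, D - 1`, of complex numbers of absolute value `q^{k/2}` are
determined by the alternating sums of their power sums. -/
lemma weights_unique (q : ℝ) (hq : 1 < q) (D : ℕ) (β β' : ℕ → Multiset ℂ)
    (hβ : ∀ k, ∀ z ∈ β k, ‖z‖ = q ^ ((k : ℝ) / 2)) (hβ' : ∀ k, ∀ z ∈ β' k, ‖z‖ = q ^ ((k : ℝ) / 2))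
    (h : ∀ e, 1 ≤ e → ∑ k ∈ range D, (-1 : ℂ) ^ k * ((β k).map (fun z => z ^ e)).sum =
      ∑ k ∈ range D, (-1 : ℂ) ^ k * ((β' k).map (fun z => z ^ e)).sum) {i : ℕ} (hi : i < D) :
    β i = β' i := by
  classical
  set S : Finset ℂ := (range D).biUnion fun k => (β k).toFinset ∪ (β' k).toFinset with hS
  have hS1 : ∀ k ∈ range D, ∀ z ∈ β k, z ∈ S := fun k hk z hz =>
    mem_biUnion.2 ⟨k, hk, mem_union_left _ (Multiset.mem_toFinset.2 hz)⟩
  have hS2 : ∀ k ∈ range D, ∀ z ∈ β' k, z ∈ S := fun k hk z hz =>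
    mem_biUnion.2 ⟨k, hk, mem_union_right _ (Multiset.mem_toFinset.2 hz)⟩
  set m : ℂ → ℂ := fun z => ∑ k ∈ range D, (-1 : ℂ) ^ k * (((β k).count z : ℂ) - (β' k).count z)
    with hm
  have hq0 : 0 < q := by linarith
  have h1 : ∀ e, 1 ≤ e → ∑ z ∈ S, m z * z ^ e = 0 := by
    intro e he
    have h2 : ∑ z ∈ S, m z * z ^ e = ∑ k ∈ range D, (-1 : ℂ) ^ k *
        ((∑ z ∈ S, ((β k).count z : ℂ) * z ^ e) - ∑ z ∈ S, ((β' k).count z : ℂ) * z ^ e) := by
      simp only [hm, sum_mul, ← sum_sub_distrib, mul_sum]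
      rw [sum_comm]
      refine sum_congr rfl fun k _ => sum_congr rfl fun z _ => ?_
      ring
    rw [h2]
    have h3 : ∀ k ∈ range D, (-1 : ℂ) ^ k *
        ((∑ z ∈ S, ((β k).count z : ℂ) * z ^ e) - ∑ z ∈ S, ((β' k).count z : ℂ) * z ^ e) =
        (-1 : ℂ) ^ k * ((β k).map (fun z => z ^ e)).sum -
          (-1 : ℂ) ^ k * ((β' k).map (fun z => z ^ e)).sum := by
      intro k hk
      rw [pow_sum_eq (β k) S (hS1 k hk), pow_sum_eq (β' k) S (hS2 k hk), mul_sub]
    rw [sum_congr rfl h3, sum_sub_distrib, h e he, sub_self]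
  have h2 : ∀ z, z ∈ β i ∨ z ∈ β' i → (β i).count z = (β' i).count z := by
    intro z hz
    have hn : ‖z‖ = q ^ ((i : ℝ) / 2) := hz.elim (hβ i z) (hβ' i z)
    have hz0 : z ≠ 0 := by
      rw [← norm_pos_iff, hn]
      positivity
    have hzS : z ∈ S := hz.elim (hS1 i (mem_range.2 hi) z) (hS2 i (mem_range.2 hi) z)
    have h3 := coeff_zero S m h1 hzS hz0
    have hinj : ∀ k : ℕ, ‖z‖ = q ^ ((k : ℝ) / 2) → k = i := by
      intro k hk
      rw [hk] at hn
      have h4 := (Real.rpow_right_inj hq0 hq.ne').1 hn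
      have h5 : (k : ℝ) = i := by linarith
      exact_mod_cast h5
    simp only [hm] at h3
    rw [sum_eq_single_of_mem i (mem_range.2 hi)] at h3
    · rcases mul_eq_zero.1 h3 with h4 | h4
      · exact (pow_ne_zero _ (by norm_num) h4).elim
      · exact_mod_cast sub_eq_zero.1 h4
    · intro k _ hk
      have h4 : z ∉ β k := fun h5 => hk (hinj k (hβ k z h5))
      have h5 : z ∉ β' k := fun h5 => hk (hinj k (hβ' k z h5))
      rw [Multiset.count_eq_zero_of_notMem h4, Multiset.count_eq_zero_of_notMem h5]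
      simp
  refine Multiset.ext.2 fun z => ?_
  by_cases hz : z ∈ β i ∨ z ∈ β' i
  · exact h2 z hz
  · rw [not_or] at hz
    rw [Multiset.count_eq_zero_of_notMem hz.1, Multiset.count_eq_zero_of_notMem hz.2]

end Pool.Agent.TH958.BV
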