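import Pool.Agent.TH958.BV.Defs
import Pool.Agent.TH958.BV.Weights
import Pool.Agent.W350.EdgeEC

/-!
# A countable set of data giving the coefficients of all projective varieties
-/

set_option autoImplicit false

namespace Pool.Agent.TH958.BV

open NumberField IsDedekindDomain Filter Topology Polynomial Pool.Agent.H921R2.TatePole
  Pool.Agent.W350.Edge Pool.Agent.W350.EdgeV Pool.Agent.W350.EdgeNF

/-- The polynomials with integer coefficients in `m` variables. -/
abbrev PR (m : ℕ) := MvPolynomial (Fin m) ℤ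

section cone

variable {n : ℕ}

/-- The cone of the preimage of the ideal of `X` under a surjection. -/
lemma cone_comap {R R' : Type} [CommRing R] [CommRing R'] (f : R →+* R')
    (hf : Function.Surjective f) (X : Set (MvPolynomial (Fin n) R')) {κ : Type} [Field κ]
    (θ : R' →+* κ) :
    cone ((Ideal.comap (MvPolynomial.map f) (Ideal.span X) : Ideal (MvPolynomial (Fin n) R)) :
      Set (MvPolynomial (Fin n) R)) (θ.comp f) = cone X θ := by
  unfold cone
  refine Nat.card_congr (Equiv.subtypeEquivRight fun u => and_congr_right fun _ => ?_)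
  have h1 : ∀ g : MvPolynomial (Fin n) R, MvPolynomial.eval₂ (θ.comp f) u g =
      MvPolynomial.eval₂ θ u (MvPolynomial.map f g) := by
    intro g
    rw [MvPolynomial.eval₂_map]
  constructor
  · intro h x hx
    obtain ⟨g, rfl⟩ := MvPolynomial.map_surjective f hf x
    rw [← h1]
    exact h g (Ideal.mem_comap.2 (Ideal.subset_span hx))
  · intro h g hg
    rw [h1]
    have h2 : Ideal.span X ≤ RingHom.ker (MvPolynomial.eval₂Hom θ u) :=
      Ideal.span_le.2 fun x hx => h x hx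
    exact h2 (Ideal.mem_comap.1 hg)

end cone

/-- Frobenius eigenvalues over the prime field. -/
def Fr (p : ℕ) {m n : ℕ} (ψ : PR m →+* ZMod p) (J : Set (MvPolynomial (Fin n) (PR m))) (d : ℕ)
    (β : ℕ → Multiset ℂ) : Prop :=
  (∀ k, ∀ z ∈ β k, ‖z‖ = (p : ℝ) ^ ((k : ℝ) / 2)) ∧
    ∀ (κ : Type) [Field κ] [Finite κ] (χ : ZMod p →+* κ) (e : ℕ), Nat.card κ = p ^ e →
      (cone J (χ.comp ψ) : ℂ) = ((p : ℂ) ^ e - 1) *
          ∑ k ∈ Finset.range (2 * d + 1), (-1 : ℂ) ^ k * ((β k).map (fun z => z ^ e)).sum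

lemma Fr.unique {p : ℕ} (hp : p.Prime) {m n : ℕ} {ψ : PR m →+* ZMod p}
    {J : Set (MvPolynomial (Fin n) (PR m))} {d i : ℕ} (hi : i ≤ 2 * d) {β β' : ℕ → Multiset ℂ}
    (h : Fr p ψ J d β) (h' : Fr p ψ J d β') : β i = β' i := by
  have hF : Fact p.Prime := ⟨hp⟩
  have hp1 : (1 : ℝ) < p := by exact_mod_cast hp.one_lt
  refine weights_unique p hp1 (2 * d + 1) β β' h.1 h'.1 (fun e he => ?_) (by omega)
  have h1 := h.2 (GaloisField p e) (algebraMap (ZMod p) (GaloisField p e)) e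
    (GaloisField.card p e (by omega))
  have h2 := h'.2 (GaloisField p e) (algebraMap (ZMod p) (GaloisField p e)) e
    (GaloisField.card p e (by omega))
  rw [h1] at h2
  refine mul_left_cancel₀ ?_ h2
  have h3 : (1 : ℕ) < p ^ e := Nat.one_lt_pow (by omega) hp.one_lt
  have h4 : ((p : ℂ) ^ e) ≠ 1 := by exact_mod_cast h3.ne'
  exact sub_ne_zero.2 h4

open Classical in
/-- The normalised trace of Frobenius on `H^i`, if it exists. -/
noncomputable def tr (p : ℕ) {m n : ℕ} (ψ : PR m →+* ZMod p)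
    (J : Set (MvPolynomial (Fin n) (PR m))) (d i : ℕ) : ℂ :=
  if h : ∃ β, Fr p ψ J d β then (h.choose i).sum / (((p : ℝ) ^ ((i : ℝ) / 2) : ℝ) : ℂ) else 0

lemma tr_eq {p : ℕ} (hp : p.Prime) {m n : ℕ} {ψ : PR m →+* ZMod p}
    {J : Set (MvPolynomial (Fin n) (PR m))} {d i : ℕ} (hi : i ≤ 2 * d) {β : ℕ → Multiset ℂ}
    (h : Fr p ψ J d β) : tr p ψ J d i = (β i).sum / (((p : ℝ) ^ ((i : ℝ) / 2) : ℝ) : ℂ) := by
  have h1 : ∃ β, Fr p ψ J d β := ⟨β, h⟩
  unfold tr
  rw [dif_pos h1, Fr.unique hp hi h1.choose_spec h]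

/-- The countable set of all data. -/
def Idx : Type := Σ m : ℕ, Σ n : ℕ, (Ideal (PR m) × Ideal (MvPolynomial (Fin n) (PR m)) × ℕ × ℕ ×
  ℕ × Finset ℕ)

instance countable_mvPoly (n : ℕ) (R : Type) [CommRing R] [Countable R] :
    Countable (MvPolynomial (Fin n) R) := by
  rw [← Cardinal.mk_le_aleph0_iff]
  refine MvPolynomial.cardinalMk_le_max.trans ?_
  simp

instance : Countable Idx := by
  unfold Idx
  have h2 : ∀ m, Countable (Ideal (PR m)) := fun m => countable_ideal _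
  have h3 : ∀ m n, Countable (Ideal (MvPolynomial (Fin n) (PR m))) := fun m n => countable_ideal _
  infer_instance

open Classical in
/-- The sum over the homomorphisms to the prime field. -/
noncomputable def hsum (x : Idx) (p : ℕ) : ℂ :=
  if p ∈ x.2.2.2.2.2.2.2 then 0 else
    ∑' ψ : {ψ : PR x.1 →+* ZMod p // x.2.2.1 ≤ RingHom.ker ψ},
      tr p ψ.1 (x.2.2.2.1 : Set (MvPolynomial (Fin x.2.1) (PR x.1))) x.2.2.2.2.1 x.2.2.2.2.2.1

open Classical in
/-- The coefficients attached to the data. -/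
noncomputable def coef (x : Idx) (p : ℕ) : ℂ :=
  if ‖hsum x p‖ ≤ x.2.2.2.2.2.2.1 then hsum x p else 0

lemma norm_coef (x : Idx) (p : ℕ) : ‖coef x p‖ ≤ x.2.2.2.2.2.2.1 := by
  unfold coef
  split_ifs with h
  · exact h
  · simp

/-- The set of algebraic polynomials is countable. -/
lemma countable_alg : {P : ℂ[X] | ∀ k, IsAlgebraic ℚ (P.coeff k)}.Countable := by
  have h1 : Countable {x : ℂ // IsAlgebraic ℚ x} := (Algebraic.countable ℚ ℂ).to_subtype
  have h2 : Countable (algebraicClosure ℚ ℂ) := by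
    refine Function.Injective.countable (β := {x : ℂ // IsAlgebraic ℚ x})
      (f := fun x => ⟨x.1, mem_algebraicClosure_iff.1 x.2⟩) fun x y h => ?_
    exact Subtype.ext (congrArg (fun z : {x : ℂ // IsAlgebraic ℚ x} => z.1) h)
  have h3 : Countable (Polynomial (algebraicClosure ℚ ℂ)) := by
    rw [← Cardinal.mk_le_aleph0_iff]
    refine Polynomial.cardinalMk_le_max.trans ?_
    simp
  refine (Set.countable_range (Polynomial.map (algebraMap (algebraicClosure ℚ ℂ) ℂ))).mono ?_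
  intro P hP
  have h4 : P ∈ Polynomial.lifts (algebraMap (algebraicClosure ℚ ℂ) ℂ) := by
    rw [Polynomial.lifts_iff_coeff_lifts]
    intro k
    exact ⟨⟨P.coeff k, mem_algebraicClosure_iff.2 (hP k)⟩, rfl⟩
  obtain ⟨Q, hQ⟩ := (Polynomial.mem_lifts _).1 h4
  exact ⟨Q, hQ⟩

/-- The zeros on the edge of the possible factors. -/
def zset (x : ℕ × ℕ × {P : ℂ[X] // ∀ k, IsAlgebraic ℚ (P.coeff k)}) : Set ℝ :=
  {τ | 2 ≤ x.1 ∧ x.2.2.1 ≠ 0 ∧ x.2.2.1.eval ((x.1 : ℂ) ^ (-sp x.2.1 τ)) = 0}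

lemma zset_countable (x : ℕ × ℕ × {P : ℂ[X] // ∀ k, IsAlgebraic ℚ (P.coeff k)}) :
    (zset x).Countable := by
  by_cases hx : 2 ≤ x.1 ∧ x.2.2.1 ≠ 0
  · exact (Pool.Agent.W350.EdgeEC.countable_zeros' hx.1 x.2.1 hx.2).mono fun τ hτ => hτ.2.2
  · refine Set.Countable.mono ?_ Set.countable_empty
    intro τ hτ
    exact (hx ⟨hτ.1, hτ.2.1⟩).elim

/-- The universal exceptional set. -/
def TT : Set ℝ := (⋃ x : Idx, divSet (coef x)) ∪
  ⋃ x : ℕ × ℕ × {P : ℂ[X] // ∀ k, IsAlgebraic ℚ (P.coeff k)}, zset x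

lemma dimH_TT : dimH TT = 0 := by
  have : Countable {P : ℂ[X] // ∀ k, IsAlgebraic ℚ (P.coeff k)} := countable_alg.to_subtype
  unfold TT
  rw [dimH_union, dimH_iUnion, dimH_countable (Set.countable_iUnion zset_countable)]
  simp only [dimH_divSet _ _ (norm_coef _)]
  simp

end Pool.Agent.TH958.BV
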